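import Pool.Agent.H265R2.P5f

set_option autoImplicit false

namespace Pool.Agent.Results.MP_33dc3a_co.SixGraphs

open Pool.Agent.H265R2.P5
open Pool.Agent.H265R2.CritP4 (NoConf)

/-- `G` is `k`-vertex-critical: `χ(G) = k` and `χ(G - v) < k` for every vertex `v`. -/
def IsVertexCritical {V : Type} (G : SimpleGraph V) (k : ℕ) : Prop :=
  G.chromaticNumber = k ∧ ∀ v : V, (G.induce {v}ᶜ).chromaticNumber < k

/-- `P₄ + P₁`: the path `0 - 1 - 2 - 3` and the isolated vertex `4`. -/
def fourPathPlusOne : SimpleGraph (Fin 5) :=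
  SimpleGraph.fromEdgeSet {s(0, 1), s(1, 2), s(2, 3)}

/-- The chair: the star with centre `0` and leaves `1, 2, 3`, whose edge `0 3` is prolonged by the
pendant vertex `4` (so `K_{1,3}` with one edge subdivided). -/
def chair : SimpleGraph (Fin 5) :=
  SimpleGraph.fromEdgeSet {s(0, 1), s(0, 2), s(0, 3), s(3, 4)}

/-- The bull: the triangle `0, 1, 2` with pendant vertices `3` (at `0`) and `4` (at `1`). -/
def bull : SimpleGraph (Fin 5) :=
  SimpleGraph.fromEdgeSet {s(0, 1), s(0, 2), s(1, 2), s(0, 3), s(1, 4)}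

/-- The cricket, i.e. `K_{1,4}` plus an edge: `0` is adjacent to `1, 2, 3, 4`, and `1` to `2`. -/
def cricket : SimpleGraph (Fin 5) :=
  SimpleGraph.fromEdgeSet {s(0, 1), s(0, 2), s(0, 3), s(0, 4), s(1, 2)}

/-- `C₄ + P₁`: the cycle `0 - 1 - 2 - 3 - 0` and the isolated vertex `4`. -/
def squarePlusOne : SimpleGraph (Fin 5) :=
  SimpleGraph.fromEdgeSet {s(0, 1), s(1, 2), s(2, 3), s(0, 3)}

/-- `5 P₁`: five isolated vertices. -/
def fivePoints : SimpleGraph (Fin 5) := ⊥

/-- Finite graphs (on the vertex sets `{0, …, n - 1}`) up to isomorphism. -/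
def isoSetoid : Setoid (Σ n : ℕ, SimpleGraph (Fin n)) where
  r p q := Nonempty (p.2 ≃g q.2)
  iseqv :=
    { refl := fun _ => ⟨SimpleGraph.Iso.refl⟩
      symm := fun ⟨e⟩ => ⟨e.symm⟩
      trans := fun ⟨e⟩ ⟨f⟩ => ⟨e.trans f⟩ }

/-- `crit_k(P₅, H)`: the set of isomorphism classes of finite `k`-vertex-critical graphs with
no induced subgraph isomorphic to `P₅` and none isomorphic to `H`. -/
def crit (k : ℕ) (H : SimpleGraph (Fin 5)) : Set (Quotient isoSetoid) :=
  {c | ∃ p : Σ n : ℕ, SimpleGraph (Fin n), Quotient.mk isoSetoid p = c ∧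
    IsVertexCritical p.2 k ∧ ¬ (SimpleGraph.pathGraph 5).IsIndContained p.2 ∧
    ¬ H.IsIndContained p.2}

theorem ns {V : Type} {G : SimpleGraph V} {p q : V} (h : ¬ G.Adj p q) : ¬ G.Adj q p :=
  fun h' => h h'.symm

theorem noP5_of_free {V : Type} (G : SimpleGraph V)
    (h : ¬ (SimpleGraph.pathGraph 5).IsIndContained G) : NoP5 G := by
  intro a b c d e hab hbc hcd hde hac had hae hbd hbe hce
  apply h
  apply embed5 G _ a b c d e hab.ne (fun h => had (h ▸ hcd)) (fun h => hae (h ▸ hde))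
    (fun h => had (h ▸ hde.symm)) hbc.ne (fun h => hbe (h ▸ hde))
    (fun h => hae (h ▸ hab)) hcd.ne (fun h => hbe (h ▸ hbc)) hde.ne <;>
  simp [SimpleGraph.pathGraph_adj, hab, hbc, hcd, hde, hac, had, hae, hbd, hbe, hce]

theorem noConf_of_free {V : Type} (G : SimpleGraph V)
    (h : ¬ fourPathPlusOne.IsIndContained G) : NoConf G 1 := by
  intro a b c d S hab hbc hcd hac had hbd hS _
  by_contra hcard
  obtain ⟨x, hx⟩ : S.Nonempty := by
    rw [← Finset.card_pos]; omega
  obtain ⟨h1, h2, h3, h4⟩ := hS x hx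
  apply h
  apply embed5 G _ a b c d x hab.ne (fun h => had (h ▸ hcd)) (fun h => hac (h ▸ hcd.symm))
    (fun h => h2 (h ▸ hab)) hbc.ne (fun h => had (h ▸ hab))
    (fun h => h1 (h ▸ hab.symm)) hcd.ne (fun h => h4 (h ▸ hcd)) (fun h => h3 (h ▸ hcd.symm)) <;>
  simp [fourPathPlusOne, hab, hbc, hcd, hac, had, hbd, G.adj_comm _ x, h1, h2, h3, h4]

theorem noChair_of_free {V : Type} (G : SimpleGraph V)
    (h : ¬ chair.IsIndContained G) : NoChair G := by
  intro o b b' a y hob hob' hoa hay hne hbb hba hba' hby hby' hoy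
  apply h
  apply embed5 G _ o b b' a y hob.ne hob'.ne hoa.ne (fun h => hby (h ▸ hob.symm)) hne
    (fun h => hby (h ▸ hay)) (fun h => hoy (h ▸ hob)) (fun h => hby' (h ▸ hay))
    (fun h => hoy (h ▸ hob')) hay.ne <;>
  simp [chair, hob, hob', hoa, hay, hbb, hba, hba', hby, hby', hoy]

theorem noBull_of_free {V : Type} (G : SimpleGraph V)
    (h : ¬ bull.IsIndContained G) : NoBull G := by
  intro a b c x y hab hac hbc hax hby hxb hxc hxy hya hyc
  apply h
  apply embed5 G _ a b c x y hab.ne hac.ne hax.ne (fun h => hxy (h ▸ hax.symm)) hbc.ne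
    (fun h => hxy (h ▸ hby)) hby.ne (fun h => hxb (h ▸ hbc.symm))
    (fun h => hya (h ▸ hac.symm)) (fun h => hxb (h ▸ hby.symm)) <;>
  simp [bull, hab, hac, hbc, hax, hby, (ns hxb), (ns hxc), hxy, (ns hya),
    (ns hyc)]

theorem noCricket_of_free {V : Type} (G : SimpleGraph V)
    (h : ¬ cricket.IsIndContained G) : NoCricket G := by
  intro q q' c x x' hqq hqc hqc' hqx hqx' hne hxx hxq hxc hxq' hxc'
  apply h
  apply embed5 G _ q q' c x x' hqq.ne hqc.ne hqx.ne hqx'.ne hqc'.ne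
    (fun h => hxc (h ▸ hqc')) (fun h => hxc' (h ▸ hqc')) (fun h => hxq (h ▸ hqc'.symm))
    (fun h => hxq' (h ▸ hqc'.symm)) hne <;>
  simp [cricket, hqq, hqc, hqc', hqx, hqx', hxx, (ns hxq), (ns hxc),
    (ns hxq'), (ns hxc')]

theorem noSquare_of_free {V : Type} (G : SimpleGraph V)
    (h : ¬ squarePlusOne.IsIndContained G) : NoSquare G := by
  intro a b c d x hab hbc hcd hda hac hbd hac' hbd' hxa hxb hxc hxd h1 h2 h3 h4
  apply h
  apply embed5 G _ a b c d x hab.ne hac hda.ne.symm hxa.symm hbc.ne hbd hxb.symm hcd.ne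
    hxc.symm hxd.symm <;>
  simp [squarePlusOne, hab, hbc, hcd, hda.symm, hac', hbd', G.adj_comm _ x, h1, h2, h3, h4]

theorem noFive_of_free {V : Type} (G : SimpleGraph V)
    (h : ¬ fivePoints.IsIndContained G) :
    ∀ S : Finset V, (∀ x ∈ S, ∀ y ∈ S, ¬ G.Adj x y) → S.card < 5 := by
  intro S hS
  by_contra hcard
  push Not at hcard
  apply h
  obtain ⟨T, hT, hc⟩ := Finset.exists_subset_card_eq hcard
  let e : Fin 5 ≃ T := (Finset.equivFinOfCardEq hc).symm
  refine ⟨⟨⟨fun i => (e i : V), fun i j hij => e.injective (Subtype.ext hij)⟩, ?_⟩⟩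
  intro i j
  show G.Adj (e i) (e j) ↔ (⊥ : SimpleGraph (Fin 5)).Adj i j
  simp only [SimpleGraph.bot_adj, iff_false]
  exact hS _ (hT (e i).2) _ (hT (e j).2)

theorem order_bound (H : SimpleGraph (Fin 5)) (hH : H ∈ ({fourPathPlusOne, chair, bull, cricket,
    squarePlusOne, fivePoints} : Set (SimpleGraph (Fin 5)))) (k : ℕ) :
    ∃ N : ℕ, ∀ (V : Type) [Fintype V] (G : SimpleGraph V),
    IsVertexCritical G k → ¬ (SimpleGraph.pathGraph 5).IsIndContained G →
    ¬ H.IsIndContained G → Fintype.card V < N := by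
  rcases Nat.eq_zero_or_pos k with hk | hk
  · subst hk
    refine ⟨1, fun V _ G h _ => ?_⟩
    have h0 : G.Colorable 0 := by
      rw [← SimpleGraph.chromaticNumber_le_iff_colorable, h.1]
    obtain ⟨φ⟩ := h0
    have : IsEmpty V := ⟨fun v => (φ v).elim0⟩
    intro _
    rw [Fintype.card_eq_zero]
    exact Nat.one_pos
  · obtain ⟨K, rfl⟩ : ∃ K, k = K + 1 := ⟨k - 1, by omega⟩
    obtain ⟨N, hN⟩ := order_bound_elem K
    refine ⟨N, fun V _ G h hP5 hfree => ?_⟩
    apply hN V G
    · intro hc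
      rw [← SimpleGraph.chromaticNumber_le_iff_colorable, h.1] at hc
      have : K + 1 ≤ K := by exact_mod_cast hc
      omega
    · rw [← SimpleGraph.chromaticNumber_le_iff_colorable, h.1]
    · intro v
      rw [← SimpleGraph.chromaticNumber_le_iff_colorable]
      have h2 := h.2 v
      have : ((K + 1 : ℕ) : ℕ∞) = (K : ℕ∞) + 1 := by push_cast; rfl
      rw [this] at h2
      exact Order.le_of_lt_add_one h2
    · exact noP5_of_free G hP5
    · simp only [Set.mem_insert_iff, Set.mem_singleton_iff] at hH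
      rcases hH with rfl | rfl | rfl | rfl | rfl | rfl
      · exact Or.inl (noConf_of_free G hfree)
      · exact Or.inr (Or.inl (noChair_of_free G hfree))
      · exact Or.inr (Or.inr (Or.inl (noBull_of_free G hfree)))
      · exact Or.inr (Or.inr (Or.inr (Or.inl (noCricket_of_free G hfree))))
      · exact Or.inr (Or.inr (Or.inr (Or.inr (Or.inl (noSquare_of_free G hfree)))))
      · exact Or.inr (Or.inr (Or.inr (Or.inr (Or.inr (noFive_of_free G hfree)))))

/-- For each of the six graphs `H = P₄ + P₁`, chair, bull, cricket, `C₄ + P₁`, `5 P₁` and for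
every `k` there are only finitely many `k`-vertex-critical `(P₅, H)`-free graphs. -/
theorem result : ∀ H ∈ ({fourPathPlusOne, chair, bull, cricket, squarePlusOne, fivePoints} :
    Set (SimpleGraph (Fin 5))), ∀ k : ℕ, (crit k H).Finite := by
  intro H hH k
  obtain ⟨N, hN⟩ := order_bound H hH k
  have hfin : {p : Σ n : ℕ, SimpleGraph (Fin n) | IsVertexCritical p.2 k ∧
      ¬ (SimpleGraph.pathGraph 5).IsIndContained p.2 ∧ ¬ H.IsIndContained p.2}.Finite := by
    apply Set.Finite.subset (s := ⋃ n ∈ Set.Iio N,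
      (fun G : SimpleGraph (Fin n) => (⟨n, G⟩ : Σ n : ℕ, SimpleGraph (Fin n))) '' Set.univ)
    · exact Set.Finite.biUnion (Set.finite_Iio N) (fun n _ => Set.toFinite _)
    · rintro ⟨n, G⟩ ⟨h1, h2, h3⟩
      have := hN (Fin n) G h1 h2 h3
      rw [Fintype.card_fin] at this
      simp only [Set.mem_iUnion]
      exact ⟨n, this, G, Set.mem_univ _, rfl⟩
  refine (hfin.image (Quotient.mk isoSetoid)).subset ?_
  rintro c ⟨p, hp, h1, h2, h3⟩
  exact ⟨p, ⟨h1, h2, h3⟩, hp⟩

end Pool.Agent.Results.MP_33dc3a_co.SixGraphs
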